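import Pool.Agent.R579.Chaos.Young

/-!
Pairings, uniqueness, approximation, and commutation with invariant operators.
-/

set_option linter.unusedSectionVars false

namespace Pool.Agent.R579.Chaos

open MeasureTheory Set Filter Topology Metric
open scoped ENNReal CompactlySupported BoundedContinuousFunction

variable {X : Type*} [MetricSpace X] [ProperSpace X] [MeasurableSpace X] [BorelSpace X]
  {μ : Measure X} [IsFiniteMeasureOnCompacts μ]

/-- Integration against a compactly supported continuous function separates `L^p`. -/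
theorem eq_zero_of_pairing {p : ℝ≥0∞} [Fact (1 ≤ p)] (u : Lp ℂ p μ)
    (h : ∀ ψ : C_c(X, ℂ), ∫ x, u x * ψ x ∂μ = 0) : u = 0 := by
  have hloc : LocallyIntegrable u μ := (Lp.memLp u).locallyIntegrable Fact.out
  rw [Lp.eq_zero_iff_ae_eq_zero]
  refine ae_eq_zero_of_forall_setIntegral_isCompact_eq_zero' hloc (fun s hs => ?_)
  rcases s.eq_empty_or_nonempty with rfl | hne
  · simp
  set K' := cthickening 1 s with hK'
  have hK'c : IsCompact K' := hs.cthickening
  let φ : ℕ → X → ℝ := fun n x => max 0 (1 - (n + 1) * infDist x s)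
  have hφc : ∀ n, Continuous (φ n) := fun n => by
    have := continuous_infDist_pt s
    fun_prop
  have hφ0 : ∀ n x, 0 ≤ φ n x := fun n x => le_max_left _ _
  have hφ1 : ∀ n x, φ n x ≤ 1 := fun n x => by
    refine max_le zero_le_one ?_
    have : 0 ≤ ((n : ℝ) + 1) * infDist x s := by
      have := infDist_nonneg (x := x) (s := s)
      positivity
    linarith
  have hφz : ∀ n x, x ∉ K' → φ n x = 0 := fun n x hx => by
    refine max_eq_left ?_
    have h1 : 1 < infDist x s := by
      by_contra hlt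
      push Not at hlt
      apply hx
      rw [hK', mem_cthickening_iff]
      have h2 : infEDist x s ≠ ∞ := infEDist_ne_top hne
      rw [← ENNReal.ofReal_toReal h2]
      exact ENNReal.ofReal_le_ofReal hlt
    have h3 : (0 : ℝ) ≤ n := Nat.cast_nonneg n
    nlinarith
  let ψ : ℕ → C_c(X, ℂ) := fun n =>
    ⟨⟨fun x => (φ n x : ℂ), Complex.continuous_ofReal.comp (hφc n)⟩,
      HasCompactSupport.intro hK'c (fun x hx => by
        change ((φ n x : ℝ) : ℂ) = 0
        rw [hφz n x hx, Complex.ofReal_zero])⟩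
  have hψ : ∀ n x, ψ n x = (φ n x : ℂ) := fun n x => rfl
  have hlim : Tendsto (fun n => ∫ x, u x * ψ n x ∂μ) atTop
      (𝓝 (∫ x, s.indicator (fun x => u x) x ∂μ)) := by
    refine tendsto_integral_of_dominated_convergence
      (K'.indicator (fun x => ‖u x‖)) (fun n => ?_) ?_ (fun n => ?_) ?_
    · exact (Lp.aestronglyMeasurable u).mul
        (ψ n).continuous.aestronglyMeasurable
    · rw [integrable_indicator_iff hK'c.measurableSet]
      exact (hloc.integrableOn_isCompact hK'c).norm
    · refine Eventually.of_forall (fun x => ?_)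
      by_cases hx : x ∈ K'
      · rw [Set.indicator_of_mem hx, norm_mul, hψ, Complex.norm_real,
          Real.norm_of_nonneg (hφ0 n x)]
        exact mul_le_of_le_one_right (norm_nonneg _) (hφ1 n x)
      · rw [Set.indicator_of_notMem hx, hψ, hφz n x hx, Complex.ofReal_zero, mul_zero, norm_zero]
    · refine Eventually.of_forall (fun x => ?_)
      by_cases hx : x ∈ s
      · have h1 : ∀ n, u x * ψ n x = u x := fun n => by
          rw [hψ]
          change u x * ((max 0 (1 - ((n : ℝ) + 1) * infDist x s) : ℝ) : ℂ) = u x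
          rw [infDist_zero_of_mem hx, mul_zero, sub_zero, max_eq_right zero_le_one,
            Complex.ofReal_one, mul_one]
        simp_rw [h1, Set.indicator_of_mem hx]
        exact tendsto_const_nhds
      · have hpos : 0 < infDist x s :=
          (hs.isClosed.notMem_iff_infDist_pos hne).1 hx
        rw [Set.indicator_of_notMem hx]
        obtain ⟨N, hN⟩ := exists_nat_gt (1 / infDist x s)
        refine tendsto_const_nhds.congr' ?_
        filter_upwards [eventually_ge_atTop N] with n hn
        rw [hψ]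
        change (0 : ℂ) = u x * ((max 0 (1 - ((n : ℝ) + 1) * infDist x s) : ℝ) : ℂ)
        have h2 : 1 < ((n : ℝ) + 1) * infDist x s := by
          have h3 : (N : ℝ) ≤ n := by exact_mod_cast hn
          rw [div_lt_iff₀ hpos] at hN
          nlinarith
        rw [max_eq_left (by linarith), Complex.ofReal_zero, mul_zero]
  rw [integral_indicator hs.measurableSet] at hlim
  have h0 : (fun n => ∫ x, u x * ψ n x ∂μ) = fun _ => (0 : ℂ) := funext (fun n => h (ψ n))
  rw [h0] at hlim
  exact (tendsto_nhds_unique hlim tendsto_const_nhds)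

section Pairing

variable (p q : ℝ≥0∞) [Fact (1 ≤ p)] [Fact (1 ≤ q)] [ENNReal.HolderConjugate p q]

variable (μ) in
/-- The duality pairing. -/
noncomputable def pr : Lp ℂ p μ →L[ℂ] Lp ℂ q μ →L[ℂ] ℂ :=
  (ContinuousLinearMap.mul ℂ ℂ).lpPairing μ p q

theorem pr_toE (u : Lp ℂ p μ) (ψ : C_c(X, ℂ)) :
    pr μ p q u (toE μ q ψ) = ∫ x, u x * ψ x ∂μ := by
  rw [pr, ContinuousLinearMap.lpPairing_eq_integral]
  refine integral_congr_ae ?_
  filter_upwards [coeFn_toE μ q ψ] with x hx
  rw [hx]
  rfl

end Pairing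

namespace GoodKer

variable {k : X → X → ℝ}

theorem pr_op (hk : GoodKer μ k) {p q p' q' : ℝ≥0∞} [Fact (1 ≤ p)] [Fact (1 ≤ q)]
    [Fact (1 ≤ p')] [Fact (1 ≤ q')] [ENNReal.HolderConjugate p q]
    [ENNReal.HolderConjugate p' q'] (hpp : p ≤ p') (hp' : p' ≠ ∞) (u : Lp ℂ p μ)
    (ψ : C_c(X, ℂ)) :
    ∫ x, (hk.op p p' u) x * ψ x ∂μ = ∫ x, u x * hk.avg ψ x ∂μ := by
  rw [← pr_toE p' q', ← pr_toE p q]
  have hp : p ≠ ∞ := fun h => hp' (top_le_iff.1 (h ▸ hpp))
  have h1 : Continuous (fun u : Lp ℂ p μ => pr μ p' q' (hk.op p p' u) (toE μ q' ψ)) :=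
    ((pr μ p' q').flip (toE μ q' ψ)).continuous.comp (hk.op p p').continuous
  have h2 : Continuous (fun u : Lp ℂ p μ => pr μ p q u (toE μ q (hk.avg ψ))) :=
    ((pr μ p q).flip (toE μ q (hk.avg ψ))).continuous
  refine congrFun ((denseRange_toE μ p hp).equalizer h1 h2 (funext (fun f => ?_))) u
  change pr μ p' q' (hk.op p p' (toE μ p f)) (toE μ q' ψ)
    = pr μ p q (toE μ p f) (toE μ q (hk.avg ψ))
  rw [hk.op_toE hpp hp', pr_toE, pr_toE]
  have e1 : ∫ x, (toE μ p' (hk.avg f)) x * ψ x ∂μ = ∫ x, hk.avg f x * ψ x ∂μ := by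
    refine integral_congr_ae ?_
    filter_upwards [coeFn_toE μ p' (hk.avg f)] with x hx
    rw [hx]
  have e2 : ∫ x, (toE μ p f) x * hk.avg ψ x ∂μ = ∫ x, f x * hk.avg ψ x ∂μ := by
    refine integral_congr_ae ?_
    filter_upwards [coeFn_toE μ p f] with x hx
    rw [hx]
  rw [e1, e2]
  exact hk.integral_avg_mul f ψ

end GoodKer

/-- A sequence of good kernels concentrating on the diagonal. -/
structure GoodSeq (μ : Measure X) (k : ℕ → X → X → ℝ) : Prop where
  good : ∀ n, GoodKer μ (k n)
  conc : ∀ (n : ℕ) (x y : X), 1 / ((n : ℝ) + 1) ≤ dist x y → k n x y = 0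

theorem GoodSeq.tendsto {k : ℕ → X → X → ℝ} (hk : GoodSeq μ k) (p : ℝ≥0∞) [Fact (1 ≤ p)]
    (f : C_c(X, ℂ)) :
    Tendsto (fun n => toE μ p ((hk.good n).avg f)) atTop (𝓝 (toE μ p f)) := by
  obtain ⟨χ, hχ⟩ := exists_cutoff (X := X) (f.hasCompactSupport.isCompact.cthickening (r := 1))
  have h1 : ∀ n, toE μ p ((hk.good n).avg f)
      = cutE μ p χ ((hk.good n).avg f).toBoundedContinuousFunction := by
    intro n
    symm
    refine cutE_apply μ p χ _ (fun x hx => hχ x ?_)
    by_contra hn
    exact hx ((hk.good n).avg_zero' f hn)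
  have h2 : toE μ p f = cutE μ p χ f.toBoundedContinuousFunction := by
    symm
    refine cutE_apply μ p χ _ (fun x hx => hχ x ?_)
    exact self_subset_cthickening _ (subset_tsupport _ hx)
  rw [h2]
  simp_rw [h1]
  refine ((cutE μ p χ).continuous.tendsto _).comp ?_
  rw [Metric.tendsto_atTop]
  intro ε hε
  have huc : UniformContinuous (fun x => f x) :=
    HasCompactSupport.uniformContinuous_of_continuous f.hasCompactSupport f.continuous
  obtain ⟨δ, hδ, hδ'⟩ := Metric.uniformContinuous_iff.1 huc (ε / 2) (by positivity)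
  obtain ⟨N, hN⟩ := exists_nat_gt (1 / δ)
  refine ⟨N, fun n hn => ?_⟩
  refine lt_of_le_of_lt ?_ (half_lt_self hε)
  rw [BoundedContinuousFunction.dist_le (by positivity)]
  intro x
  change dist ((hk.good n).avg f x) (f x) ≤ ε / 2
  have hint : Integrable (fun w => ((k n w x : ℝ) : ℂ)) μ := by
    have := ((hk.good n).integrable_k x).ofReal (𝕜 := ℂ)
    refine this.congr (Eventually.of_forall (fun w => ?_))
    change ((k n x w : ℝ) : ℂ) = ((k n w x : ℝ) : ℂ)
    rw [(hk.good n).symm x w]
  have hone : ∫ w, ((k n w x : ℝ) : ℂ) ∂μ = 1 := by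
    have h3 : ∫ w, ((k n w x : ℝ) : ℂ) ∂μ = ((∫ w, k n x w ∂μ : ℝ) : ℂ) := by
      rw [← integral_complex_ofReal]
      refine integral_congr_ae (Eventually.of_forall (fun w => ?_))
      change ((k n w x : ℝ) : ℂ) = ((k n x w : ℝ) : ℂ)
      rw [(hk.good n).symm x w]
    rw [h3, (hk.good n).int_one, Complex.ofReal_one]
  have h3 : (hk.good n).avg f x - f x = ∫ w, (f w - f x) * (k n w x : ℂ) ∂μ := by
    have h4 : ∀ w, (f w - f x) * (k n w x : ℂ) = f w * (k n w x : ℂ) - f x * (k n w x : ℂ) :=
      fun w => by ring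
    simp_rw [h4]
    rw [integral_sub ((hk.good n).integrable_apply f x) (hint.const_mul (f x)),
      integral_const_mul, hone, mul_one, (hk.good n).avg_apply]
  rw [dist_eq_norm, h3]
  have h5 : ∀ w, ‖(f w - f x) * (k n w x : ℂ)‖ ≤ ε / 2 * k n x w := by
    intro w
    rw [norm_mul, Complex.norm_real, Real.norm_of_nonneg ((hk.good n).nonneg w x),
      (hk.good n).symm w x]
    by_cases hd : 1 / ((n : ℝ) + 1) ≤ dist x w
    · rw [hk.conc n x w hd, mul_zero, mul_zero]
    · push Not at hd
      refine mul_le_mul_of_nonneg_right ?_ ((hk.good n).nonneg x w)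
      have h6 : dist w x < δ := by
        rw [dist_comm]
        refine hd.trans_le ?_
        have h7 : (N : ℝ) ≤ n := by exact_mod_cast hn
        rw [div_lt_iff₀ hδ] at hN
        rw [div_le_iff₀ (by positivity)]
        nlinarith
      have := (hδ' h6).le
      rwa [dist_eq_norm] at this
  refine (norm_integral_le_of_norm_le (((hk.good n).integrable_k x).const_mul (ε / 2))
    (Eventually.of_forall h5)).trans (le_of_eq ?_)
  rw [integral_const_mul, (hk.good n).int_one, mul_one]

end Pool.Agent.R579.Chaos
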