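import Mathlib

/-!
Linear dynamics: hypercyclic and chaotic operators, and a transfer principle.
-/

namespace Pool.Agent.R579.Chaos

open Set Filter Topology

/-- `T` is hypercyclic: some vector has a dense orbit `{Tⁿ f : n ≥ 0}`. -/
def Hypercyclic {E : Type*} [NormedAddCommGroup E] [NormedSpace ℂ E] (T : E →L[ℂ] E) : Prop :=
  ∃ f : E, Dense (Set.range fun n : ℕ => (T ^ n) f)

/-- `T` is chaotic: hypercyclic with a dense set of periodic points. -/
def Chaotic {E : Type*} [NormedAddCommGroup E] [NormedSpace ℂ E] (T : E →L[ℂ] E) : Prop :=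
  Hypercyclic T ∧ Dense {f : E | ∃ N : ℕ, 1 ≤ N ∧ (T ^ N) f = f}

variable {E : Type*} [NormedAddCommGroup E] [NormedSpace ℂ E]

theorem Hypercyclic.transitive {T : E →L[ℂ] E} (h : Hypercyclic T) {U V : Set E}
    (hU : IsOpen U) (hV : IsOpen V) (hUn : U.Nonempty) (hVn : V.Nonempty) :
    ∃ n : ℕ, ∃ x ∈ U, (T ^ n) x ∈ V := by
  obtain ⟨f, hf⟩ := h
  rcases subsingleton_or_nontrivial E with hE | hE
  · obtain ⟨x, hx⟩ := hUn
    obtain ⟨y, hy⟩ := hVn
    refine ⟨0, x, hx, ?_⟩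
    rwa [Subsingleton.elim ((T ^ 0) x) y]
  · obtain ⟨_, hx, ⟨a, rfl⟩⟩ := hf.inter_open_nonempty U hU hUn
    have hne : ∀ x : E, (𝓝[≠] x).NeBot := fun x => inferInstance
    have hd : Dense ((Set.range fun n : ℕ => (T ^ n) f) \
        ((fun n : ℕ => (T ^ n) f) '' (Set.Iio a))) :=
      hf.sdiff_finite ((Set.finite_Iio a).image _)
    obtain ⟨_, hy, ⟨⟨b, rfl⟩, hb⟩⟩ := hd.inter_open_nonempty V hV hVn
    have hab : a ≤ b := by
      by_contra hlt
      push Not at hlt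
      exact hb ⟨b, hlt, rfl⟩
    refine ⟨b - a, (T ^ a) f, hx, ?_⟩
    have : (T ^ (b - a)) ((T ^ a) f) = (T ^ b) f := by
      rw [← ContinuousLinearMap.mul_apply, ← pow_add, Nat.sub_add_cancel hab]
    rw [this]
    exact hy

theorem hypercyclic_of_transitive [CompleteSpace E] [SecondCountableTopology E] {T : E →L[ℂ] E}
    (h : ∀ U V : Set E, IsOpen U → IsOpen V → U.Nonempty → V.Nonempty →
      ∃ n : ℕ, ∃ x ∈ U, (T ^ n) x ∈ V) : Hypercyclic T := by
  let B := TopologicalSpace.countableBasis E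
  have hBc : B.Countable := TopologicalSpace.countable_countableBasis E
  have hB : TopologicalSpace.IsTopologicalBasis B := TopologicalSpace.isBasis_countableBasis E
  have hBne : ∀ V ∈ B, V.Nonempty := fun V hV =>
    TopologicalSpace.nonempty_of_mem_countableBasis hV
  have hdense : Dense (⋂ V ∈ B, ⋃ n : ℕ, (fun x => (T ^ n) x) ⁻¹' V) := by
    refine dense_biInter_of_isOpen (fun V hV => ?_) hBc (fun V hV => ?_)
    · exact isOpen_iUnion (fun n => (hB.isOpen hV).preimage (T ^ n).continuous)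
    · rw [dense_iff_inter_open]
      intro U hU hUn
      obtain ⟨n, x, hx, hxV⟩ := h U V hU (hB.isOpen hV) hUn (hBne V hV)
      exact ⟨x, hx, Set.mem_iUnion.2 ⟨n, hxV⟩⟩
  obtain ⟨f, hf⟩ := hdense.nonempty
  refine ⟨f, ?_⟩
  rw [hB.dense_iff]
  intro V hV _
  have := Set.mem_iInter₂.1 hf V hV
  obtain ⟨n, hn⟩ := Set.mem_iUnion.1 this
  exact ⟨_, hn, ⟨n, rfl⟩⟩

variable {E₁ E₂ : Type*} [NormedAddCommGroup E₁] [NormedSpace ℂ E₁] [NormedAddCommGroup E₂]
  [NormedSpace ℂ E₂]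

theorem comm_pow {T₁ : E₁ →L[ℂ] E₁} {T₂ : E₂ →L[ℂ] E₂} {H : E₂ →L[ℂ] E₁}
    (h : ∀ x, T₁ (H x) = H (T₂ x)) (n : ℕ) (x : E₂) : (T₁ ^ n) (H x) = H ((T₂ ^ n) x) := by
  induction n generalizing x with
  | zero => rfl
  | succ n ih =>
    rw [pow_succ, pow_succ, ContinuousLinearMap.mul_apply, ContinuousLinearMap.mul_apply, h, ih]

/-- Transfer principle: if there are operators `H n : E₂ → E₁` intertwining `T₂` and `T₁` and
converging on a dense set to the inclusion, then hypercyclicity and chaos pass from `T₂` to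
`T₁`. -/
theorem transfer [CompleteSpace E₁] [SecondCountableTopology E₁] {D : Type*} {j₁ : D → E₁}
    {j₂ : D → E₂} (hj₁ : DenseRange j₁) {T₁ : E₁ →L[ℂ] E₁} {T₂ : E₂ →L[ℂ] E₂}
    (H : ℕ → E₂ →L[ℂ] E₁) (hH : ∀ n x, T₁ (H n x) = H n (T₂ x))
    (hlim : ∀ d, Tendsto (fun n => H n (j₂ d)) atTop (𝓝 (j₁ d))) :
    (Hypercyclic T₂ → Hypercyclic T₁) ∧ (Chaotic T₂ → Chaotic T₁) := by
  have hhyp : Hypercyclic T₂ → Hypercyclic T₁ := by
    intro h
    refine hypercyclic_of_transitive (fun U V hU hV hUn hVn => ?_)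
    obtain ⟨d, hd⟩ := hj₁.exists_mem_open hU hUn
    obtain ⟨d', hd'⟩ := hj₁.exists_mem_open hV hVn
    have h1 : ∀ᶠ n in atTop, H n (j₂ d) ∈ U := (hlim d).eventually (hU.mem_nhds hd)
    have h2 : ∀ᶠ n in atTop, H n (j₂ d') ∈ V := (hlim d').eventually (hV.mem_nhds hd')
    obtain ⟨n, hn1, hn2⟩ := (h1.and h2).exists
    obtain ⟨k, x, hx, hxV⟩ := h.transitive (hU.preimage (H n).continuous)
      (hV.preimage (H n).continuous) ⟨j₂ d, hn1⟩ ⟨j₂ d', hn2⟩
    refine ⟨k, H n x, hx, ?_⟩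
    rw [comm_pow (hH n)]
    exact hxV
  refine ⟨hhyp, fun h => ⟨hhyp h.1, ?_⟩⟩
  rw [dense_iff_inter_open]
  intro U hU hUn
  obtain ⟨d, hd⟩ := hj₁.exists_mem_open hU hUn
  have h1 : ∀ᶠ n in atTop, H n (j₂ d) ∈ U := (hlim d).eventually (hU.mem_nhds hd)
  obtain ⟨n, hn⟩ := h1.exists
  obtain ⟨x, hx, N, hN, hNx⟩ := h.2.inter_open_nonempty _ (hU.preimage (H n).continuous)
    ⟨j₂ d, hn⟩
  refine ⟨H n x, hx, N, hN, ?_⟩
  rw [comm_pow (hH n), hNx]

end Pool.Agent.R579.Chaos
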