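import Pool.Agent.R579.Chaos.Sym

/-!
The hyperbolic plane `SL(2, ℝ) / SO(2)` satisfies the hypotheses.
-/

namespace Pool.Agent.R579.Chaos

open MeasureTheory UpperHalfPlane Matrix
open scoped MatrixGroups

/-- Any two points of the upper half plane are exchanged by an element of `SL(2, ℝ)`. -/
theorem exists_swap (z w : ℍ) : ∃ g : SL(2, ℝ), g • z = w ∧ g • w = z := by
  obtain ⟨x₁, y₁, hz1, hz2⟩ : ∃ x y : ℝ, z.re = x ∧ z.im = y := ⟨_, _, rfl, rfl⟩
  obtain ⟨x₂, y₂, hw1, hw2⟩ : ∃ x y : ℝ, w.re = x ∧ w.im = y := ⟨_, _, rfl, rfl⟩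
  have hy₁ : 0 < y₁ := hz2 ▸ z.im_pos
  have hy₂ : 0 < y₂ := hw2 ▸ w.im_pos
  set D : ℝ := y₁ * y₂ * ((x₁ - x₂) ^ 2 + (y₁ + y₂) ^ 2) with hD
  have hDpos : 0 < D := by positivity
  set r : ℝ := Real.sqrt D with hr
  have hrpos : 0 < r := Real.sqrt_pos.2 hDpos
  have hr2 : r * r = D := Real.mul_self_sqrt hDpos.le
  set c : ℝ := y₁ + y₂ with hc
  set a : ℝ := x₁ * y₂ + x₂ * y₁ with ha
  set b : ℝ := c * (x₁ * x₂ - y₁ * y₂) - a * (x₁ + x₂) with hb
  have hdet : -a * a - b * c = D := by
    rw [hb, ha, hc, hD]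
    ring
  let g : SL(2, ℝ) := ⟨!![a / r, b / r; c / r, -a / r], by
    rw [Matrix.det_fin_two_of]
    rw [div_mul_div_comm, div_mul_div_comm, ← sub_div, hr2, div_eq_one_iff_eq hDpos.ne', ← hdet]
    ring⟩
  have hcoez : (z : ℂ) = ⟨x₁, y₁⟩ := by
    apply Complex.ext
    · exact hz1
    · exact hz2
  have hcoew : (w : ℂ) = ⟨x₂, y₂⟩ := by
    apply Complex.ext
    · exact hw1
    · exact hw2
  have hrc : (r : ℂ) ≠ 0 := by exact_mod_cast hrpos.ne'
  have key : ∀ u v : ℍ, (a : ℂ) * u + b = v * (c * u - a) → g • u = v := by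
    intro u v huv
    apply UpperHalfPlane.ext
    rw [coe_specialLinearGroup_apply]
    have h1 : (((c / r : ℝ) : ℂ) * (u : ℂ) + ((-a / r : ℝ) : ℂ)) ≠ 0 := by
      intro h0
      have h2 := congrArg Complex.im h0
      simp only [Complex.add_im, Complex.mul_im, Complex.ofReal_re, Complex.ofReal_im, zero_mul,
        add_zero, Complex.zero_im] at h2
      have h3 : 0 < c / r := by positivity
      have h4 := u.im_pos
      have h5 : (u : ℂ).im = u.im := rfl
      rw [h5] at h2
      nlinarith [mul_pos h3 h4]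
    rw [div_eq_iff]
    · change ((a / r : ℝ) : ℂ) * (u : ℂ) + ((b / r : ℝ) : ℂ)
        = (v : ℂ) * (((c / r : ℝ) : ℂ) * (u : ℂ) + ((-a / r : ℝ) : ℂ))
      push_cast
      field_simp
      rw [huv]
      ring
    · exact h1
  refine ⟨g, key z w ?_, key w z ?_⟩
  · rw [hcoez, hcoew]
    apply Complex.ext
    · simp only [Complex.add_re, Complex.mul_re, Complex.sub_re, Complex.ofReal_re,
        Complex.ofReal_im, Complex.sub_im, Complex.mul_im]
      rw [hb, ha, hc]
      ring
    · simp only [Complex.add_im, Complex.mul_re, Complex.sub_re, Complex.ofReal_re,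
        Complex.ofReal_im, Complex.sub_im, Complex.mul_im]
      rw [ha, hc]
      ring
  · rw [hcoez, hcoew]
    apply Complex.ext
    · simp only [Complex.add_re, Complex.mul_re, Complex.sub_re, Complex.ofReal_re,
        Complex.ofReal_im, Complex.sub_im, Complex.mul_im]
      rw [hb, ha, hc]
      ring
    · simp only [Complex.add_im, Complex.mul_re, Complex.sub_re, Complex.ofReal_re,
        Complex.ofReal_im, Complex.sub_im, Complex.mul_im]
      rw [ha, hc]
      ring

/-- The hyperbolic plane, with the action of `SL(2, ℝ)` and its invariant measure, is a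
symmetric metric measure space. -/
theorem isSymmetric_upperHalfPlane : IsSymmetric SL(2, ℝ) (volume : Measure ℍ) id where
  isometry_smul g := isometry_smul ℍ g
  preserving_smul g := by
    have h := measurePreserving_smul (g : GL (Fin 2) ℝ) (volume : Measure ℍ)
    exact h
  transitive x y := MulAction.exists_smul_eq SL(2, ℝ) x y
  isometry_s := isometry_id
  preserving_s := MeasurePreserving.id _
  invol _ := rfl
  swap x y := exists_swap x y

/-- The invariant measure of the hyperbolic plane is positive on open sets. -/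
theorem isOpenPos_upperHalfPlane : (volume : Measure ℍ).IsOpenPosMeasure := by
  refine ⟨fun U hU hne h0 => ?_⟩
  rw [volume_eq_lintegral] at h0
  have hUo : IsOpen ((fun z : ℍ => (z : ℂ)) '' U) :=
    UpperHalfPlane.isOpenEmbedding_coe.isOpenMap U hU
  rw [lintegral_eq_zero_iff'] at h0
  · have h1 : (volume : Measure ℂ) ((fun z : ℍ => (z : ℂ)) '' U) ≠ 0 :=
      (hUo.measure_pos _ (hne.image _)).ne'
    apply h1
    rw [Filter.EventuallyEq, ae_restrict_iff' hUo.measurableSet] at h0
    refine measure_mono_null ?_ h0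
    rintro _ ⟨z, hz, rfl⟩ hcon
    have h2 := hcon ⟨z, hz, rfl⟩
    have h3 : (0 : ℝ) < z.im := z.im_pos
    simp only [Pi.zero_apply, ENNReal.coe_eq_zero] at h2
    have h4 : ((1 / ‖(z : ℂ).im‖₊) ^ 2 : NNReal) ≠ 0 := by
      have : ‖(z : ℂ).im‖₊ ≠ 0 := by
        rw [nnnorm_ne_zero_iff]
        exact h3.ne'
      positivity
    exact h4 h2
  · refine Measurable.aemeasurable ?_
    have : Measurable (fun z : ℂ => ((1 / ‖z.im‖₊) ^ 2 : NNReal)) := by fun_prop
    exact this.coe_nnreal_ennreal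

end Pool.Agent.R579.Chaos
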