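import Mathlib

/-!
Averaging operators with symmetric continuous kernels on a proper metric measure space.
-/

set_option linter.unusedSectionVars false

namespace Pool.Agent.R579.Chaos

open MeasureTheory Set Filter Topology Metric
open scoped ENNReal CompactlySupported BoundedContinuousFunction

variable {X : Type*} [MetricSpace X] [ProperSpace X] [MeasurableSpace X] [BorelSpace X]
  {μ : Measure X} [IsFiniteMeasureOnCompacts μ]

/-- Good kernels: nonnegative, symmetric, supported at distance `< 1` from the diagonal,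
Lipschitz, bounded, with integral one. -/
structure GoodKer (μ : Measure X) (k : X → X → ℝ) : Prop where
  nonneg : ∀ x y, 0 ≤ k x y
  symm : ∀ x y, k x y = k y x
  supp : ∀ x y, 1 ≤ dist x y → k x y = 0
  lip : ∃ L : NNReal, ∀ w w' x, |k w x - k w' x| ≤ L * dist w w'
  bdd : ∃ M, ∀ x y, k x y ≤ M
  int_one : ∀ x, ∫ y, k x y ∂μ = 1

namespace GoodKer

variable {k : X → X → ℝ}

theorem continuous_uncurry (hk : GoodKer μ k) : Continuous (fun z : X × X => k z.1 z.2) := by
  obtain ⟨L, hL⟩ := hk.lip
  have : LipschitzWith (2 * L) (fun z : X × X => k z.1 z.2) := by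
    refine LipschitzWith.of_dist_le_mul (fun z z' => ?_)
    have h1 := hL z.1 z'.1 z.2
    have h2 := hL z.2 z'.2 z'.1
    rw [hk.symm z.2 z'.1, hk.symm z'.2 z'.1] at h2
    have h3 : dist z.1 z'.1 ≤ dist z z' := le_max_left _ _
    have h4 : dist z.2 z'.2 ≤ dist z z' := le_max_right _ _
    have h5 : (0 : ℝ) ≤ L := L.2
    rw [Real.dist_eq]
    have h6 := abs_sub_le (k z.1 z.2) (k z'.1 z.2) (k z'.1 z'.2)
    have h7 := mul_le_mul_of_nonneg_left h3 h5
    have h8 := mul_le_mul_of_nonneg_left h4 h5
    push_cast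
    linarith
  exact this.continuous

theorem continuous_right (hk : GoodKer μ k) (w : X) : Continuous (fun x => k w x) :=
  hk.continuous_uncurry.comp (by fun_prop : Continuous fun x : X => (w, x))

theorem continuous_left (hk : GoodKer μ k) (x : X) : Continuous (fun w => k w x) :=
  hk.continuous_uncurry.comp (by fun_prop : Continuous fun w : X => (w, x))

theorem supp_right (hk : GoodKer μ k) (w : X) :
    HasCompactSupport (fun x => (k w x : ℂ)) := by
  refine HasCompactSupport.intro (isCompact_closedBall w 1) (fun x hx => ?_)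
  rw [mem_closedBall, not_le] at hx
  rw [hk.symm w x, hk.supp x w hx.le, Complex.ofReal_zero]

/-- The section `k(w, ·)` as a compactly supported continuous function. -/
noncomputable def sec (hk : GoodKer μ k) (w : X) : C_c(X, ℂ) :=
  ⟨⟨fun x => (k w x : ℂ), Complex.continuous_ofReal.comp (hk.continuous_right w)⟩,
    hk.supp_right w⟩

theorem sec_apply (hk : GoodKer μ k) (w x : X) : hk.sec w x = (k w x : ℂ) := rfl

/-- The section as a bounded continuous function. -/
noncomputable def secB (hk : GoodKer μ k) (w : X) : X →ᵇ ℂ :=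
  (hk.sec w).toBoundedContinuousFunction

theorem secB_apply (hk : GoodKer μ k) (w x : X) : hk.secB w x = (k w x : ℂ) := rfl

theorem continuous_secB (hk : GoodKer μ k) : Continuous hk.secB := by
  obtain ⟨L, hL⟩ := hk.lip
  have : LipschitzWith L hk.secB := by
    refine LipschitzWith.of_dist_le_mul (fun w w' => ?_)
    rw [BoundedContinuousFunction.dist_le (by positivity)]
    intro x
    rw [secB_apply, secB_apply, Complex.dist_eq, ← Complex.ofReal_sub, Complex.norm_real]
    exact hL w w' x
  exact this.continuous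

variable (f g : C_c(X, ℂ))

theorem integrable_smul (hk : GoodKer μ k) : Integrable (fun w => f w • hk.secB w) μ := by
  refine Continuous.integrable_of_hasCompactSupport ?_ ?_
  · exact f.continuous.smul hk.continuous_secB
  · exact f.hasCompactSupport.smul_right

/-- The averaged function, as a bounded continuous function. -/
noncomputable def avgB (hk : GoodKer μ k) (f : C_c(X, ℂ)) : X →ᵇ ℂ := ∫ w, f w • hk.secB w ∂μ

theorem avgB_apply (hk : GoodKer μ k) (x : X) :
    hk.avgB f x = ∫ w, f w * (k w x : ℂ) ∂μ := by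
  have h1 := (BoundedContinuousFunction.evalCLM ℂ (β := ℂ) x).integral_comp_comm
    (hk.integrable_smul f)
  have h2 : (BoundedContinuousFunction.evalCLM ℂ (β := ℂ) x) (hk.avgB f) = hk.avgB f x := rfl
  rw [← h2, avgB, ← h1]
  rfl

theorem avg_zero (hk : GoodKer μ k) {x : X} (hx : x ∉ cthickening 1 (tsupport f)) :
    hk.avgB f x = 0 := by
  rw [avgB_apply]
  refine integral_eq_zero_of_ae (Eventually.of_forall (fun w => ?_))
  change f w * (k w x : ℂ) = 0
  by_cases hw : w ∈ tsupport f
  · rw [hk.supp w x, Complex.ofReal_zero, mul_zero]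
    by_contra hlt
    push Not at hlt
    refine hx (mem_cthickening_of_dist_le x w 1 _ hw ?_)
    rw [dist_comm]
    exact hlt.le
  · rw [image_eq_zero_of_notMem_tsupport hw, zero_mul]

/-- The averaging operator on compactly supported continuous functions. -/
noncomputable def avg (hk : GoodKer μ k) (f : C_c(X, ℂ)) : C_c(X, ℂ) :=
  ⟨⟨hk.avgB f, (hk.avgB f).continuous⟩,
    HasCompactSupport.intro (f.hasCompactSupport.isCompact.cthickening (r := 1))
      (fun _ hx => hk.avg_zero f hx)⟩

theorem avg_apply (hk : GoodKer μ k) (x : X) :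
    hk.avg f x = ∫ w, f w * (k w x : ℂ) ∂μ := hk.avgB_apply f x

theorem avg_zero' (hk : GoodKer μ k) {x : X} (hx : x ∉ cthickening 1 (tsupport f)) :
    hk.avg f x = 0 := hk.avg_zero f hx

theorem integrable_apply (hk : GoodKer μ k) (x : X) :
    Integrable (fun w => f w * (k w x : ℂ)) μ := by
  refine Continuous.integrable_of_hasCompactSupport ?_ ?_
  · exact f.continuous.mul (Complex.continuous_ofReal.comp (hk.continuous_left x))
  · exact f.hasCompactSupport.mul_right

/-- The averaging operator as a linear map. -/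
noncomputable def avgL (hk : GoodKer μ k) : C_c(X, ℂ) →ₗ[ℂ] C_c(X, ℂ) where
  toFun := hk.avg
  map_add' f g := by
    ext x
    rw [CompactlySupportedContinuousMap.add_apply, avg_apply, avg_apply, avg_apply,
      ← integral_add (hk.integrable_apply f x) (hk.integrable_apply g x)]
    refine integral_congr_ae (Eventually.of_forall (fun w => ?_))
    change (f + g) w * (k w x : ℂ) = f w * (k w x : ℂ) + g w * (k w x : ℂ)
    rw [CompactlySupportedContinuousMap.add_apply, add_mul]
  map_smul' c f := by
    ext x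
    rw [RingHom.id_apply, CompactlySupportedContinuousMap.smul_apply, avg_apply, avg_apply,
      smul_eq_mul, ← integral_const_mul]
    refine integral_congr_ae (Eventually.of_forall (fun w => ?_))
    change (c • f) w * (k w x : ℂ) = c * (f w * (k w x : ℂ))
    rw [CompactlySupportedContinuousMap.smul_apply, smul_eq_mul, mul_assoc]

theorem avgL_apply (hk : GoodKer μ k) : hk.avgL f = hk.avg f := rfl

end GoodKer

section Embed

variable (μ) (p : ℝ≥0∞) [Fact (1 ≤ p)]

theorem memLp_cc (f : C_c(X, ℂ)) : MemLp f p μ :=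
  f.continuous.memLp_of_hasCompactSupport f.hasCompactSupport

/-- The inclusion of compactly supported continuous functions into `L^p`. -/
noncomputable def toE : C_c(X, ℂ) →ₗ[ℂ] Lp ℂ p μ where
  toFun f := (memLp_cc μ p f).toLp f
  map_add' f g := (memLp_cc μ p f).toLp_add (memLp_cc μ p g)
  map_smul' c f := (memLp_cc μ p f).toLp_const_smul c

theorem coeFn_toE (f : C_c(X, ℂ)) : toE μ p f =ᵐ[μ] f := (memLp_cc μ p f).coeFn_toLp

theorem norm_toE (f : C_c(X, ℂ)) : ‖toE μ p f‖ = (eLpNorm f p μ).toReal :=
  Lp.norm_toLp _ (memLp_cc μ p f)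

theorem denseRange_toE (hp : p ≠ ∞) : DenseRange (toE μ p) := by
  intro u
  rw [Metric.mem_closure_iff]
  intro ε hε
  obtain ⟨g, hgs, hg, hgc, hgm⟩ := (Lp.memLp u).exists_hasCompactSupport_eLpNorm_sub_le hp
    (ε := ENNReal.ofReal (ε / 2)) (by
      rw [ne_eq, ENNReal.ofReal_eq_zero]
      push Not
      positivity)
  refine ⟨toE μ p ⟨⟨g, hgc⟩, hgs⟩, ⟨_, rfl⟩, ?_⟩
  rw [dist_eq_norm, Lp.norm_def]
  have h1 : eLpNorm (u - toE μ p ⟨⟨g, hgc⟩, hgs⟩ : Lp ℂ p μ) p μ ≤ ENNReal.ofReal (ε / 2) := by
    refine le_trans (le_of_eq (eLpNorm_congr_ae ?_)) hg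
    filter_upwards [Lp.coeFn_sub u (toE μ p ⟨⟨g, hgc⟩, hgs⟩),
      coeFn_toE μ p (⟨⟨g, hgc⟩, hgs⟩ : C_c(X, ℂ))] with x hx hx'
    rw [hx, Pi.sub_apply, Pi.sub_apply, hx']
    rfl
  have h2 := ENNReal.toReal_mono ENNReal.ofReal_ne_top h1
  rw [ENNReal.toReal_ofReal (by positivity)] at h2
  linarith

/-- Multiplication by a cutoff, from bounded continuous functions to `L^p`. -/
noncomputable def cutE (χ : C_c(X, ℂ)) : (X →ᵇ ℂ) →L[ℂ] Lp ℂ p μ :=
  LinearMap.mkContinuous
    { toFun := fun f => toE μ p ⟨⟨fun x => χ x * f x, χ.continuous.mul f.continuous⟩,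
        χ.hasCompactSupport.mul_right⟩
      map_add' := fun f g => by
        rw [← map_add]
        congr 1
        ext x
        exact mul_add _ _ _
      map_smul' := fun c f => by
        rw [RingHom.id_apply, ← map_smul]
        congr 1
        ext x
        change χ x * (c * f x) = c * (χ x * f x)
        ring } ‖toE μ p χ‖ (fun f => by
      simp only [LinearMap.coe_mk, AddHom.coe_mk]
      rw [norm_toE, norm_toE, mul_comm]
      have h1 : eLpNorm (fun x => χ x * f x) p μ ≤ ENNReal.ofReal ‖f‖ * eLpNorm χ p μ := by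
        refine eLpNorm_le_mul_eLpNorm_of_ae_le_mul (Eventually.of_forall (fun x => ?_)) p
        rw [norm_mul, mul_comm]
        exact mul_le_mul_of_nonneg_right (f.norm_coe_le_norm x) (norm_nonneg _)
      have h2 : ENNReal.ofReal ‖f‖ * eLpNorm χ p μ ≠ ∞ :=
        ENNReal.mul_ne_top ENNReal.ofReal_ne_top (memLp_cc μ p χ).2.ne
      have h3 := ENNReal.toReal_mono h2 h1
      rw [ENNReal.toReal_mul, ENNReal.toReal_ofReal (norm_nonneg _)] at h3
      exact h3)

theorem cutE_apply (χ f : C_c(X, ℂ)) (h : ∀ x, f x ≠ 0 → χ x = 1) :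
    cutE μ p χ f.toBoundedContinuousFunction = toE μ p f := by
  change toE μ p _ = toE μ p f
  congr 1
  ext x
  change χ x * f x = f x
  by_cases hx : f x = 0
  · rw [hx, mul_zero]
  · rw [h x hx, one_mul]

theorem exists_cutoff {K : Set X} (hK : IsCompact K) : ∃ χ : C_c(X, ℂ), ∀ x ∈ K, χ x = 1 := by
  obtain ⟨f, hf1, _, hf3, _⟩ := exists_continuous_one_zero_of_isCompact hK isClosed_empty
    (disjoint_empty K)
  refine ⟨⟨⟨fun x => (f x : ℂ), Complex.continuous_ofReal.comp f.continuous⟩, ?_⟩, fun x hx => ?_⟩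
  · exact hf3.comp_left Complex.ofReal_zero
  · change (f x : ℂ) = 1
    rw [hf1 hx]
    rfl

end Embed

namespace GoodKer

variable {k : X → X → ℝ} (p : ℝ≥0∞) [Fact (1 ≤ p)] (f : C_c(X, ℂ))

/-- The averaged function is the Bochner integral of the sections in `L^p`. -/
theorem toE_avg (hk : GoodKer μ k) :
    Integrable (fun w => f w • toE μ p (hk.sec w)) μ ∧
    toE μ p (hk.avg f) = ∫ w, f w • toE μ p (hk.sec w) ∂μ := by
  obtain ⟨χ, hχ⟩ := exists_cutoff (X := X) (f.hasCompactSupport.isCompact.cthickening (r := 1))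
  have h1 : ∀ w, f w • toE μ p (hk.sec w) = cutE μ p χ (f w • hk.secB w) := by
    intro w
    rw [map_smul]
    by_cases hw : w ∈ tsupport f
    · congr 1
      symm
      refine cutE_apply μ p χ (hk.sec w) (fun x hx => hχ x ?_)
      by_contra hn
      apply hx
      rw [sec_apply, hk.supp w x, Complex.ofReal_zero]
      by_contra hlt
      push Not at hlt
      refine hn (mem_cthickening_of_dist_le x w 1 _ hw ?_)
      rw [dist_comm]
      exact hlt.le
    · rw [image_eq_zero_of_notMem_tsupport hw, zero_smul, zero_smul]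
  have h2 : toE μ p (hk.avg f) = cutE μ p χ (hk.avgB f) := by
    symm
    refine cutE_apply μ p χ (hk.avg f) (fun x hx => hχ x ?_)
    by_contra hn
    exact hx (hk.avg_zero' f hn)
  refine ⟨?_, ?_⟩
  · simp_rw [h1]
    exact (cutE μ p χ).integrable_comp (hk.integrable_smul f)
  · rw [h2, avgB, ← ContinuousLinearMap.integral_comp_comm _ (hk.integrable_smul f)]
    simp_rw [h1]

/-- Continuous linear maps pass through the averaging integral. -/
theorem map_toE_avg (hk : GoodKer μ k) {F : Type*} [NormedAddCommGroup F] [NormedSpace ℂ F]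
    [CompleteSpace F] (S : Lp ℂ p μ →L[ℂ] F) :
    S (toE μ p (hk.avg f)) = ∫ w, f w • S (toE μ p (hk.sec w)) ∂μ := by
  obtain ⟨h1, h2⟩ := hk.toE_avg p f
  rw [h2, ← ContinuousLinearMap.integral_comp_comm _ h1]
  simp_rw [map_smul]

end GoodKer

end Pool.Agent.R579.Chaos
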