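import Pool.Agent.R579.Chaos.Comm
import Pool.Agent.R579.Chaos.Dyn

/-!
Symmetric metric measure spaces, and the commutation theorem.
-/

set_option linter.unusedSectionVars false

namespace Pool.Agent.R579.Chaos

open MeasureTheory Set Filter Topology Metric
open scoped ENNReal CompactlySupported BoundedContinuousFunction

/-- `(G, X, μ, s)` is a symmetric metric measure space: `G` acts on the metric space `X`
transitively, by isometries preserving `μ`; `s` is an involutive isometry preserving `μ`
(a geodesic symmetry), and any two points are exchanged by `g ∘ s` for some `g` in `G`. -/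
structure IsSymmetric (G : Type*) {X : Type*} [Group G] [MetricSpace X] [MeasurableSpace X]
    [MulAction G X] (μ : Measure X) (s : X → X) : Prop where
  isometry_smul : ∀ g : G, Isometry (fun x : X => g • x)
  preserving_smul : ∀ g : G, MeasurePreserving (fun x : X => g • x) μ μ
  transitive : ∀ x y : X, ∃ g : G, g • x = y
  isometry_s : Isometry s
  preserving_s : MeasurePreserving s μ μ
  invol : ∀ x, s (s x) = x
  swap : ∀ x y : X, ∃ g : G, g • s x = y ∧ g • s y = x

/-- The operator `T` on `L^p` commutes with the action of `G`. -/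
def CommutesWith {G X : Type*} [Group G] [MetricSpace X] [MeasurableSpace X]
    [MulAction G X] {μ : Measure X} {s : X → X} (h : IsSymmetric G μ s) {p : ℝ≥0∞}
    [Fact (1 ≤ p)] (T : Lp ℂ p μ →L[ℂ] Lp ℂ p μ) : Prop :=
  ∀ (g : G) (u : Lp ℂ p μ),
    T (Lp.compMeasurePreserving (fun x : X => g • x) (h.preserving_smul g) u) =
      Lp.compMeasurePreserving (fun x : X => g • x) (h.preserving_smul g) (T u)

variable {X : Type*} [MetricSpace X] [ProperSpace X] [MeasurableSpace X] [BorelSpace X]
  {μ : Measure X} [IsFiniteMeasureOnCompacts μ]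
  {G : Type*} [Group G] [MulAction G X] {s : X → X}

/-- The tent function of radius `1 / (n + 1)`. -/
noncomputable def tent (n : ℕ) (x y : X) : ℝ := max 0 (1 - (n + 1) * dist x y)

theorem tent_nonneg (n : ℕ) (x y : X) : 0 ≤ tent n x y := le_max_left _ _

theorem tent_symm (n : ℕ) (x y : X) : tent n x y = tent n y x := by
  unfold tent
  rw [dist_comm]

theorem tent_zero (n : ℕ) (x y : X) (h : 1 / ((n : ℝ) + 1) ≤ dist x y) : tent n x y = 0 := by
  refine max_eq_left ?_
  rw [div_le_iff₀ (by positivity)] at h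
  linarith

theorem tent_le (n : ℕ) (x y : X) : tent n x y ≤ 1 := by
  refine max_le zero_le_one ?_
  have : 0 ≤ ((n : ℝ) + 1) * dist x y := by positivity
  linarith

theorem tent_lip (n : ℕ) (w w' x : X) :
    |tent n w x - tent n w' x| ≤ ((n : ℝ) + 1) * dist w w' := by
  unfold tent
  rw [max_comm 0, max_comm 0]
  refine (abs_max_sub_max_le_abs (1 - ((n : ℝ) + 1) * dist w x)
    (1 - ((n : ℝ) + 1) * dist w' x) 0).trans ?_
  rw [show (1 - ((n : ℝ) + 1) * dist w x) - (1 - ((n : ℝ) + 1) * dist w' x)
    = -(((n : ℝ) + 1) * (dist w x - dist w' x)) by ring, abs_neg, abs_mul,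
    abs_of_pos (by positivity : (0 : ℝ) < (n : ℝ) + 1)]
  exact mul_le_mul_of_nonneg_left (abs_dist_sub_le w w' x) (by positivity)

theorem tent_self (n : ℕ) (x : X) : tent n x x = 1 := by
  unfold tent
  rw [dist_self, mul_zero, sub_zero]
  exact max_eq_right zero_le_one

theorem tent_continuous (n : ℕ) (x : X) : Continuous (tent n x) := by
  unfold tent
  fun_prop

theorem tent_isometry {σ : X → X} (hσ : Isometry σ) (n : ℕ) (x y : X) :
    tent n (σ x) (σ y) = tent n x y := by
  unfold tent
  rw [hσ.dist_eq]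

theorem tent_compact (n : ℕ) (x : X) : HasCompactSupport (tent n x) := by
  refine HasCompactSupport.intro (isCompact_closedBall x 1) (fun y hy => ?_)
  rw [mem_closedBall, not_le] at hy
  refine tent_zero n x y ?_
  rw [dist_comm]
  refine le_trans ?_ hy.le
  rw [div_le_one (by positivity)]
  have : (0 : ℝ) ≤ n := Nat.cast_nonneg n
  linarith

variable (μ) in
/-- The total mass of the tent function. -/
noncomputable def tentMass (n : ℕ) (x : X) : ℝ := ∫ y, tent n x y ∂μ

theorem tentMass_pos [μ.IsOpenPosMeasure] (n : ℕ) (x : X) : 0 < tentMass μ n x := by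
  refine Continuous.integral_pos_of_hasCompactSupport_nonneg_nonzero (x := x)
    (tent_continuous n x) (tent_compact n x) (fun y => tent_nonneg n x y) ?_
  rw [tent_self]
  exact one_ne_zero

/-- Change of variables for measure preserving isometries of a proper space. -/
theorem integral_comp_iso {σ : X → X} (hσ : Isometry σ) (hμ : MeasurePreserving σ μ μ)
    {F : Type*} [NormedAddCommGroup F] [NormedSpace ℝ F] (f : X → F) :
    ∫ x, f (σ x) ∂μ = ∫ x, f x ∂μ :=
  hμ.integral_comp hσ.isClosedEmbedding.measurableEmbedding f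

theorem tentMass_eq (h : IsSymmetric G μ s) (n : ℕ) (x y : X) :
    tentMass μ n x = tentMass μ n y := by
  obtain ⟨g, rfl⟩ := h.transitive x y
  unfold tentMass
  rw [← integral_comp_iso (h.isometry_smul g) (h.preserving_smul g)
    (fun z => tent n (g • x) z)]
  refine integral_congr_ae (Eventually.of_forall (fun z => ?_))
  exact (tent_isometry (h.isometry_smul g) n x z).symm

variable (μ) in
/-- The normalised kernel. -/
noncomputable def ker (n : ℕ) (x y : X) : ℝ := tent n x y / tentMass μ n x

theorem ker_goodSeq [μ.IsOpenPosMeasure] (h : IsSymmetric G μ s) : GoodSeq μ (ker μ) := by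
  refine ⟨fun n => ⟨?_, ?_, ?_, ?_, ?_, ?_⟩, ?_⟩
  · intro x y
    exact div_nonneg (tent_nonneg n x y) (tentMass_pos n x).le
  · intro x y
    unfold ker
    rw [tent_symm, tentMass_eq h n x y]
  · intro x y hxy
    unfold ker
    rw [tent_zero n x y, zero_div]
    refine le_trans ?_ hxy
    rw [div_le_one (by positivity)]
    have : (0 : ℝ) ≤ n := Nat.cast_nonneg n
    linarith
  · rcases isEmpty_or_nonempty X with hX | ⟨⟨x₀⟩⟩
    · exact ⟨0, fun w => (hX.false w).elim⟩
    · refine ⟨⟨((n : ℝ) + 1) / tentMass μ n x₀,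
        div_nonneg (by positivity) (tentMass_pos n x₀).le⟩, fun w w' x => ?_⟩
      unfold ker
      rw [tentMass_eq h n w x₀, tentMass_eq h n w' x₀, ← sub_div, abs_div,
        abs_of_pos (tentMass_pos n x₀)]
      change _ ≤ ((n : ℝ) + 1) / tentMass μ n x₀ * dist w w'
      rw [div_mul_eq_mul_div]
      exact div_le_div_of_nonneg_right (tent_lip n w w' x) (tentMass_pos n x₀).le
  · rcases isEmpty_or_nonempty X with hX | ⟨⟨x₀⟩⟩
    · exact ⟨0, fun w => (hX.false w).elim⟩
    · refine ⟨1 / tentMass μ n x₀, fun x y => ?_⟩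
      unfold ker
      rw [tentMass_eq h n x x₀]
      exact div_le_div_of_nonneg_right (tent_le n x y) (tentMass_pos n x₀).le
  · intro x
    unfold ker
    rw [integral_div]
    exact div_self (tentMass_pos n x).ne'
  · intro n x y hxy
    unfold ker
    rw [tent_zero n x y hxy, zero_div]

theorem ker_isometry (h : IsSymmetric G μ s) {σ : X → X} (hσ : Isometry σ) (n : ℕ) (x y : X) :
    ker μ n (σ x) (σ y) = ker μ n x y := by
  unfold ker
  rw [tent_isometry hσ, tentMass_eq h n (σ x) x]

/-- The kernels commute. -/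
theorem ker_comm [μ.IsOpenPosMeasure] (h : IsSymmetric G μ s) (m n : ℕ) (x z : X) :
    ∫ w, ker μ m x w * ker μ n w z ∂μ = ∫ w, ker μ n x w * ker μ m w z ∂μ := by
  have hk := ker_goodSeq h
  obtain ⟨g, hg1, hg2⟩ := h.swap x z
  have hσ : Isometry (fun w : X => g • s w) := (h.isometry_smul g).comp h.isometry_s
  have hσμ : MeasurePreserving (fun w : X => g • s w) μ μ :=
    (h.preserving_smul g).comp h.preserving_s
  rw [← integral_comp_iso hσ hσμ (fun w => ker μ n x w * ker μ m w z)]
  refine integral_congr_ae (Eventually.of_forall (fun w => ?_))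
  change ker μ m x w * ker μ n w z = ker μ n x (g • s w) * ker μ m (g • s w) z
  have h1 : ker μ n x (g • s w) = ker μ n z w := by
    rw [← hg2]
    exact ker_isometry h hσ n z w
  have h2 : ker μ m (g • s w) z = ker μ m w x := by
    rw [← hg1]
    exact ker_isometry h hσ m w x
  rw [h1, h2, (hk.good m).symm w x, (hk.good n).symm z w]
  ring

/-- The averaging operators commute on sections. -/
theorem avg_sec_comm [μ.IsOpenPosMeasure] (h : IsSymmetric G μ s) (m n : ℕ) (z : X) :
    ((ker_goodSeq h).good n).avg (((ker_goodSeq h).good m).sec z)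
      = ((ker_goodSeq h).good m).avg (((ker_goodSeq h).good n).sec z) := by
  ext x
  rw [GoodKer.avg_apply, GoodKer.avg_apply]
  have h1 : ∀ a b : ℕ, ∫ w, ((ker_goodSeq h).good a).sec z w * (ker μ b w x : ℂ) ∂μ
      = ((∫ w, ker μ a z w * ker μ b w x ∂μ : ℝ) : ℂ) := by
    intro a b
    rw [← integral_complex_ofReal]
    refine integral_congr_ae (Eventually.of_forall (fun w => ?_))
    change (ker μ a z w : ℂ) * (ker μ b w x : ℂ) = ((ker μ a z w * ker μ b w x : ℝ) : ℂ)
    rw [Complex.ofReal_mul]
  rw [h1, h1, ker_comm h]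

/-- Composition of a compactly supported function with an isometry. -/
noncomputable def compC {σ : X → X} (hσ : Isometry σ) (f : C_c(X, ℂ)) : C_c(X, ℂ) :=
  ⟨⟨fun x => f (σ x), f.continuous.comp hσ.continuous⟩,
    f.hasCompactSupport.comp_isClosedEmbedding hσ.isClosedEmbedding⟩

theorem comp_toE {σ : X → X} (hσ : Isometry σ) (hμ : MeasurePreserving σ μ μ) (p : ℝ≥0∞)
    [Fact (1 ≤ p)] (f : C_c(X, ℂ)) :
    Lp.compMeasurePreserving σ hμ (toE μ p f) = toE μ p (compC hσ f) := rfl

theorem comp_pair {σ : X → X} (hσ : Isometry σ) (hμ : MeasurePreserving σ μ μ) {p : ℝ≥0∞}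
    [Fact (1 ≤ p)] (u : Lp ℂ p μ) (ψ : C_c(X, ℂ)) :
    ∫ x, (Lp.compMeasurePreserving σ hμ u : Lp ℂ p μ) x * compC hσ ψ x ∂μ
      = ∫ x, u x * ψ x ∂μ := by
  rw [← integral_comp_iso hσ hμ (fun x => u x * ψ x)]
  refine integral_congr_ae ?_
  filter_upwards [Lp.coeFn_compMeasurePreserving u hμ] with x hx
  rw [hx]
  rfl

theorem compC_sec [μ.IsOpenPosMeasure] (h : IsSymmetric G μ s) {σ : X → X} (hσ : Isometry σ)
    (n : ℕ) (y : X) :
    compC hσ (((ker_goodSeq h).good n).sec (σ y)) = ((ker_goodSeq h).good n).sec y := by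
  ext x
  change ((ker μ n (σ y) (σ x) : ℝ) : ℂ) = ((ker μ n y x : ℝ) : ℂ)
  rw [ker_isometry h hσ]

theorem compC_avg [μ.IsOpenPosMeasure] (h : IsSymmetric G μ s) {σ : X → X} (hσ : Isometry σ)
    (hμ : MeasurePreserving σ μ μ) (n : ℕ) (f : C_c(X, ℂ)) :
    compC hσ (((ker_goodSeq h).good n).avg f) = ((ker_goodSeq h).good n).avg (compC hσ f) := by
  ext x
  change ((ker_goodSeq h).good n).avg f (σ x) = _
  rw [GoodKer.avg_apply, GoodKer.avg_apply,
    ← integral_comp_iso hσ hμ (fun w => f w * ((ker μ n w (σ x) : ℝ) : ℂ))]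
  refine integral_congr_ae (Eventually.of_forall (fun w => ?_))
  change f (σ w) * ((ker μ n (σ w) (σ x) : ℝ) : ℂ) = f (σ w) * ((ker μ n w x : ℝ) : ℂ)
  rw [ker_isometry h hσ]

section Main

variable [μ.IsOpenPosMeasure] (h : IsSymmetric G μ s) {p : ℝ≥0∞} [Fact (1 ≤ p)]

/-- The matrix coefficients of `T` between sections. -/
noncomputable def coef (m : ℕ) (T : Lp ℂ p μ →L[ℂ] Lp ℂ p μ) (y y' : X) : ℂ :=
  ∫ x, (T (toE μ p (((ker_goodSeq h).good m).sec y))) x * ((ker_goodSeq h).good m).sec y' x ∂μ

theorem coef_smul (m : ℕ) {T : Lp ℂ p μ →L[ℂ] Lp ℂ p μ} (hT : CommutesWith h T) (g : G)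
    (y y' : X) : coef h m T (g • y) (g • y') = coef h m T y y' := by
  unfold coef
  rw [← comp_pair (h.isometry_smul g) (h.preserving_smul g)]
  rw [compC_sec h (h.isometry_smul g), ← hT g, comp_toE (h.isometry_smul g),
    compC_sec h (h.isometry_smul g)]

theorem coef_swap (m : ℕ) {T : Lp ℂ p μ →L[ℂ] Lp ℂ p μ} (hT : CommutesWith h T)
    (y y' : X) : coef h m T y y' = coef h m T (s y') (s y) := by
  obtain ⟨g, hg1, hg2⟩ := h.swap y y'
  rw [← coef_smul h m hT g (s y') (s y), hg1, hg2]

/-- The averaging operator on `L^p`. -/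
noncomputable def A (n : ℕ) (p q : ℝ≥0∞) [Fact (1 ≤ p)] [Fact (1 ≤ q)] :
    Lp ℂ p μ →L[ℂ] Lp ℂ q μ := ((ker_goodSeq h).good n).op p q

theorem A_commutes (hp : p ≠ ∞) (n : ℕ) : CommutesWith h (A h n p p) := by
  intro g u
  have hc : Continuous (fun u : Lp ℂ p μ =>
      Lp.compMeasurePreserving (fun x : X => g • x) (h.preserving_smul g) u) :=
    (Lp.isometry_compMeasurePreserving (h.preserving_smul g)).continuous
  refine congrFun ((denseRange_toE μ p hp).equalizer
    ((A h n p p).continuous.comp hc) (hc.comp (A h n p p).continuous) (funext (fun f => ?_))) u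
  change A h n p p (Lp.compMeasurePreserving _ _ (toE μ p f))
    = Lp.compMeasurePreserving _ _ (A h n p p (toE μ p f))
  rw [comp_toE (h.isometry_smul g)]
  unfold A
  rw [GoodKer.op_toE _ le_rfl hp, GoodKer.op_toE _ le_rfl hp, comp_toE (h.isometry_smul g),
    compC_avg h (h.isometry_smul g) (h.preserving_smul g)]

/-- Invariant operators commute with the averaging operators. -/
theorem commute_A {q : ℝ≥0∞} [Fact (1 ≤ q)] [ENNReal.HolderConjugate p q] (hp : p ≠ ∞)
    {T : Lp ℂ p μ →L[ℂ] Lp ℂ p μ} (hT : CommutesWith h T) (n : ℕ) (u : Lp ℂ p μ) :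
    T (A h n p p u) = A h n p p (T u) := by
  have hk := ker_goodSeq h
  have hTA : CommutesWith h (T ∘L A h n p p) := by
    intro g u
    change T (A h n p p (Lp.compMeasurePreserving _ _ u))
      = Lp.compMeasurePreserving _ _ (T (A h n p p u))
    rw [A_commutes h hp n g u, hT g]
  -- the coefficients of `T A` and `A T` agree
  have key : ∀ m y y', coef h m (T ∘L A h n p p) y y' = coef h m (A h n p p ∘L T) y y' := by
    intro m y y'
    rw [coef_swap h m hTA]
    -- left side
    have h1 : coef h m (T ∘L A h n p p) (s y') (s y)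
        = ∫ w, (ker μ n (s y') w : ℂ) * coef h m T w (s y) ∂μ := by
      have h2 : coef h m (T ∘L A h n p p) (s y') (s y)
          = ((pr μ p q).flip (toE μ q ((hk.good m).sec (s y))) ∘L T)
            (toE μ p ((hk.good m).avg ((hk.good n).sec (s y')))) := by
        unfold coef
        change _ = pr μ p q (T (toE μ p ((hk.good m).avg ((hk.good n).sec (s y')))))
          (toE μ q ((hk.good m).sec (s y)))
        rw [pr_toE, ← avg_sec_comm h m n]
        change ∫ x, (T (A h n p p (toE μ p ((hk.good m).sec (s y'))))) x * _ ∂μ = _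
        unfold A
        rw [GoodKer.op_toE _ le_rfl hp]
      rw [h2, GoodKer.map_toE_avg]
      refine integral_congr_ae (Eventually.of_forall (fun w => ?_))
      change (ker μ n (s y') w : ℂ) • pr μ p q (T (toE μ p ((hk.good m).sec w)))
        (toE μ q ((hk.good m).sec (s y))) = _
      rw [pr_toE, smul_eq_mul]
      rfl
    have h3 : coef h m (A h n p p ∘L T) y y'
        = ∫ w, (ker μ n y' w : ℂ) * coef h m T y w ∂μ := by
      have h4 : coef h m (A h n p p ∘L T) y y'
          = (pr μ p q (T (toE μ p ((hk.good m).sec y))))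
            (toE μ q ((hk.good m).avg ((hk.good n).sec y'))) := by
        unfold coef
        rw [pr_toE, ← avg_sec_comm h m n]
        exact (hk.good n).pr_op (p := p) (p' := p) (q := q) (q' := q) le_rfl hp _ _
      rw [h4, GoodKer.map_toE_avg]
      refine integral_congr_ae (Eventually.of_forall (fun w => ?_))
      change (ker μ n y' w : ℂ) • pr μ p q (T (toE μ p ((hk.good m).sec y)))
        (toE μ q ((hk.good m).sec w)) = _
      rw [pr_toE, smul_eq_mul]
      rfl
    rw [h1, h3, ← integral_comp_iso h.isometry_s h.preserving_s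
      (fun w => (ker μ n (s y') w : ℂ) * coef h m T w (s y))]
    refine integral_congr_ae (Eventually.of_forall (fun w => ?_))
    change (ker μ n (s y') (s w) : ℂ) * coef h m T (s w) (s y)
      = (ker μ n y' w : ℂ) * coef h m T y w
    rw [ker_isometry h h.isometry_s, ← coef_swap h m hT y w]
  -- pass to all functions
  have hpair : ∀ f ψ : C_c(X, ℂ),
      pr μ p q ((T ∘L A h n p p) (toE μ p f) - (A h n p p ∘L T) (toE μ p f)) (toE μ q ψ) = 0 := by
    intro f ψ
    set D : Lp ℂ p μ →L[ℂ] Lp ℂ p μ := (T ∘L A h n p p) - (A h n p p ∘L T) with hD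
    have h5 : ∀ m, pr μ p q (D (toE μ p ((hk.good m).avg f)))
        (toE μ q ((hk.good m).avg ψ)) = 0 := by
      intro m
      rw [GoodKer.map_toE_avg]
      refine integral_eq_zero_of_ae (Eventually.of_forall (fun y' => ?_))
      change ψ y' • pr μ p q (D (toE μ p ((hk.good m).avg f)))
        (toE μ q ((hk.good m).sec y')) = 0
      have h6 : pr μ p q (D (toE μ p ((hk.good m).avg f))) (toE μ q ((hk.good m).sec y'))
          = ((pr μ p q).flip (toE μ q ((hk.good m).sec y')) ∘L D)
            (toE μ p ((hk.good m).avg f)) := rfl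
      rw [h6, GoodKer.map_toE_avg]
      have h7 : ∀ y, ((pr μ p q).flip (toE μ q ((hk.good m).sec y')) ∘L D)
          (toE μ p ((hk.good m).sec y)) = 0 := by
        intro y
        have h8 := key m y y'
        unfold coef at h8
        rw [← pr_toE p q, ← pr_toE p q] at h8
        change pr μ p q ((T ∘L A h n p p) (toE μ p ((hk.good m).sec y))
          - (A h n p p ∘L T) (toE μ p ((hk.good m).sec y))) (toE μ q ((hk.good m).sec y')) = 0
        rw [map_sub, ContinuousLinearMap.sub_apply, h8, sub_self]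
      simp_rw [h7, smul_zero, integral_zero, smul_zero]
    have h9 : Tendsto (fun m => pr μ p q (D (toE μ p ((hk.good m).avg f)))
        (toE μ q ((hk.good m).avg ψ))) atTop (𝓝 (pr μ p q (D (toE μ p f)) (toE μ q ψ))) := by
      have h10 := (D.continuous.tendsto _).comp (hk.tendsto p f)
      have h11 : Tendsto (fun m => pr μ p q (D (toE μ p ((hk.good m).avg f)))) atTop
          (𝓝 (pr μ p q (D (toE μ p f)))) := ((pr μ p q).continuous.tendsto _).comp h10
      exact (isBoundedBilinearMap_apply.continuous.tendsto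
        (pr μ p q (D (toE μ p f)), toE μ q ψ)).comp (h11.prodMk_nhds (hk.tendsto q ψ))
    simp_rw [h5] at h9
    exact (tendsto_nhds_unique h9 tendsto_const_nhds)
  refine congrFun ((denseRange_toE μ p hp).equalizer (T.continuous.comp (A h n p p).continuous)
    ((A h n p p).continuous.comp T.continuous) (funext (fun f => ?_))) u
  change (T ∘L A h n p p) (toE μ p f) = (A h n p p ∘L T) (toE μ p f)
  rw [← sub_eq_zero]
  refine eq_zero_of_pairing _ (fun ψ => ?_)
  rw [← pr_toE p q]
  exact hpair f ψ

end Main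

end Pool.Agent.R579.Chaos
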