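import Pool.Agent.R579.Chaos.Sym

/-!
The transfer property of hypercyclicity and chaos between two Lebesgue spaces.
-/

set_option linter.unusedSectionVars false

namespace Pool.Agent.R579.Chaos

open MeasureTheory Set Filter Topology Metric
open scoped ENNReal

/-- The bounded linear operators on the complex space `L^p(X, μ)`. -/
abbrev BddOp {X : Type*} [MeasurableSpace X] (μ : Measure X) (p : ℝ≥0∞) [Fact (1 ≤ p)] : Type _ :=
  Lp ℂ p μ →L[ℂ] Lp ℂ p μ

/-- The function `T u` (defined up to null sets) for an operator `T` on `L^p` and `u` in `L^p`. -/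
noncomputable def ap {X : Type*} [MeasurableSpace X] {μ : Measure X} {p : ℝ≥0∞} [Fact (1 ≤ p)]
    (T : BddOp μ p) (u : Lp ℂ p μ) : X → ℂ := T u

/-- The operator `T` on `L^p` is `G`-invariant: it commutes with the action of `G` by composition,
that is, if `v(x) = u(g • x)` for almost all `x` then `(T v)(x) = (T u)(g • x)` for almost
all `x`. -/
def GInvariant (G : Type*) {X : Type*} [Group G] [MulAction G X] [MeasurableSpace X]
    {μ : Measure X} {p : ℝ≥0∞} [Fact (1 ≤ p)] (T : BddOp μ p) : Prop :=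
  ∀ (g : G) (u v : Lp ℂ p μ), (∀ᵐ x ∂μ, v x = u (g • x)) →
    ∀ᵐ x ∂μ, ap T v x = ap T u (g • x)

/-- `u` is (the class of) the continuous function `f` with compact support. -/
def IsClassOf {X : Type*} [TopologicalSpace X] [MeasurableSpace X] {μ : Measure X}
    {p : ℝ≥0∞} (u : Lp ℂ p μ) (f : X → ℂ) : Prop :=
  Continuous f ∧ HasCompactSupport f ∧ ∀ᵐ x ∂μ, u x = f x

/-- The operators `T₁` on `L^{p₁}` and `T₂` on `L^{p₂}` agree on the continuous functions with
compact support: they are the two extensions of one operator. -/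
def AgreeOnCc {X : Type*} [TopologicalSpace X] [MeasurableSpace X] {μ : Measure X}
    {p₁ p₂ : ℝ≥0∞} [Fact (1 ≤ p₁)] [Fact (1 ≤ p₂)] (T₁ : BddOp μ p₁) (T₂ : BddOp μ p₂) : Prop :=
  ∀ (f : X → ℂ) (u₁ : Lp ℂ p₁ μ) (u₂ : Lp ℂ p₂ μ), IsClassOf u₁ f → IsClassOf u₂ f →
    ∀ᵐ x ∂μ, ap T₁ u₁ x = ap T₂ u₂ x

/-- The operator `T` on `L^p` is hypercyclic. -/
def HypercyclicOp {X : Type*} [MeasurableSpace X] {μ : Measure X} {p : ℝ≥0∞} [Fact (1 ≤ p)]
    (T : BddOp μ p) : Prop := Hypercyclic T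

/-- The operator `T` on `L^p` is chaotic. -/
def ChaoticOp {X : Type*} [MeasurableSpace X] {μ : Measure X} {p : ℝ≥0∞} [Fact (1 ≤ p)]
    (T : BddOp μ p) : Prop := Chaotic T

/-- Hypercyclicity and chaos of `G`-invariant operators pass from `L^{p₂}(X, μ)` to
`L^{p₁}(X, μ)`. -/
def Transfers (G : Type*) {X : Type*} [Group G] [MulAction G X] [TopologicalSpace X]
    [MeasurableSpace X] (μ : Measure X) (p₁ p₂ : ℝ≥0∞) [Fact (1 ≤ p₁)] [Fact (1 ≤ p₂)] : Prop :=
  ∀ (T₁ : BddOp μ p₁) (T₂ : BddOp μ p₂), GInvariant G T₂ → AgreeOnCc T₁ T₂ →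
    (HypercyclicOp T₂ → HypercyclicOp T₁) ∧ (ChaoticOp T₂ → ChaoticOp T₁)

end Pool.Agent.R579.Chaos
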