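import Pool.Agent.R579.Chaos.Kernel

/-!
Norm bound, symmetry and approximation properties of averaging operators.
-/

set_option linter.unusedSectionVars false

namespace Pool.Agent.R579.Chaos

open MeasureTheory Set Filter Topology Metric
open scoped ENNReal CompactlySupported BoundedContinuousFunction

variable {X : Type*} [MetricSpace X] [ProperSpace X] [MeasurableSpace X] [BorelSpace X]
  {μ : Measure X} [IsFiniteMeasureOnCompacts μ]

namespace GoodKer

variable {k : X → X → ℝ}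

theorem integrable_k (hk : GoodKer μ k) (x : X) : Integrable (fun y => k x y) μ := by
  by_contra h
  have := hk.int_one x
  rw [integral_undef h] at this
  exact zero_ne_one this

theorem lintegral_k (hk : GoodKer μ k) (x : X) : ∫⁻ y, ENNReal.ofReal (k x y) ∂μ = 1 := by
  rw [← ofReal_integral_eq_lintegral_ofReal (hk.integrable_k x)
    (Eventually.of_forall (hk.nonneg x)), hk.int_one, ENNReal.ofReal_one]

theorem measurable_k (hk : GoodKer μ k) (x : X) : Measurable (fun y => ENNReal.ofReal (k x y)) :=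
  (hk.continuous_right x).measurable.ennreal_ofReal

/-- Jensen's inequality for the averaging operator. -/
theorem enorm_avg_rpow_le (hk : GoodKer μ k) (f : C_c(X, ℂ)) {p : ℝ≥0∞} (hp : 1 ≤ p)
    (hp' : p ≠ ∞) (x : X) :
    ‖hk.avg f x‖ₑ ^ p.toReal ≤ ∫⁻ y, ENNReal.ofReal (k x y) * ‖f y‖ₑ ^ p.toReal ∂μ := by
  have hp0 : p ≠ 0 := (zero_lt_one.trans_le hp).ne'
  have hpr : 0 < p.toReal := ENNReal.toReal_pos hp0 hp'
  have hfc : Continuous (fun y => f y) := f.continuous
  set ν : Measure X := μ.withDensity (fun y => ENNReal.ofReal (k x y)) with hν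
  have hprob : IsProbabilityMeasure ν := by
    refine ⟨?_⟩
    rw [hν, withDensity_apply _ MeasurableSet.univ, Measure.restrict_univ, hk.lintegral_k]
  have h1 : ‖hk.avg f x‖ₑ ≤ eLpNorm f 1 ν := by
    rw [hk.avg_apply, eLpNorm_one_eq_lintegral_enorm, hν,
      lintegral_withDensity_eq_lintegral_mul _ (hk.measurable_k x)
        hfc.measurable.enorm]
    refine (enorm_integral_le_lintegral_enorm _).trans (lintegral_mono (fun w => ?_))
    rw [enorm_mul, Pi.mul_apply, mul_comm]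
    refine mul_le_mul' (le_of_eq ?_) le_rfl
    rw [← ofReal_norm_eq_enorm, Complex.norm_real, Real.norm_of_nonneg (hk.nonneg w x),
      hk.symm w x]
  have h2 : eLpNorm f 1 ν ≤ eLpNorm f p ν :=
    eLpNorm_le_eLpNorm_of_exponent_le hp f.continuous.aestronglyMeasurable
  have h3 : eLpNorm f p ν = (∫⁻ y, ENNReal.ofReal (k x y) * ‖f y‖ₑ ^ p.toReal ∂μ)
      ^ (1 / p.toReal) := by
    rw [eLpNorm_eq_lintegral_rpow_enorm_toReal hp0 hp', hν,
      lintegral_withDensity_eq_lintegral_mul _ (hk.measurable_k x)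
        (hfc.measurable.enorm.pow_const _)]
    rfl
  have h4 := ENNReal.rpow_le_rpow (h1.trans (h2.trans h3.le)) hpr.le
  rwa [← ENNReal.rpow_mul, one_div, inv_mul_cancel₀ hpr.ne', ENNReal.rpow_one] at h4

theorem lintegral_swap (hk : GoodKer μ k) (F : X → ℝ≥0∞) (hF : Measurable F) :
    ∫⁻ x, ∫⁻ y, ENNReal.ofReal (k x y) * F y ∂μ ∂μ = ∫⁻ y, F y ∂μ := by
  rw [lintegral_lintegral_swap]
  · refine lintegral_congr (fun y => ?_)
    rw [lintegral_mul_const _ (hk.continuous_left y).measurable.ennreal_ofReal]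
    have : ∫⁻ x, ENNReal.ofReal (k x y) ∂μ = 1 := by
      rw [← hk.lintegral_k y]
      exact lintegral_congr (fun x => by rw [hk.symm x y])
    rw [this, one_mul]
  · refine Measurable.aemeasurable ?_
    refine Measurable.mul ?_ (hF.comp measurable_snd)
    exact hk.continuous_uncurry.measurable.ennreal_ofReal

/-- The averaging operator is bounded from `L^p` to `L^q` for `p ≤ q < ∞`. -/
theorem exists_bound (hk : GoodKer μ k) {p q : ℝ≥0∞} [Fact (1 ≤ p)] [Fact (1 ≤ q)]
    (hpq : p ≤ q) (hq : q ≠ ∞) :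
    ∃ C : ℝ, 0 ≤ C ∧ ∀ f : C_c(X, ℂ), ‖toE μ q (hk.avg f)‖ ≤ C * ‖toE μ p f‖ := by
  have hp1 : 1 ≤ p := Fact.out
  have hp' : p ≠ ∞ := fun h => hq (top_le_iff.1 (h ▸ hpq))
  have hp0 : p ≠ 0 := (zero_lt_one.trans_le hp1).ne'
  have hq0 : q ≠ 0 := (zero_lt_one.trans_le (Fact.out : 1 ≤ q)).ne'
  set a := p.toReal with ha
  set b := q.toReal with hb
  have ha0 : 0 < a := ENNReal.toReal_pos hp0 hp'
  have hb0 : 0 < b := ENNReal.toReal_pos hq0 hq
  have hab : a ≤ b := ENNReal.toReal_mono hq hpq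
  obtain ⟨M, hM⟩ := hk.bdd
  set M' : ℝ≥0∞ := ENNReal.ofReal M with hM'
  have hMtop : M' ≠ ∞ := ENNReal.ofReal_ne_top
  set t : ℝ := b / a - 1 with ht
  have ht0 : 0 ≤ t := by
    rw [ht, sub_nonneg, one_le_div ha0]
    exact hab
  set C' : ℝ≥0∞ := (M' ^ t) ^ (1 / b) with hC'
  have hC'top : C' ≠ ∞ :=
    ENNReal.rpow_ne_top_of_nonneg (by positivity) (ENNReal.rpow_ne_top_of_nonneg ht0 hMtop)
  refine ⟨C'.toReal, ENNReal.toReal_nonneg, fun f => ?_⟩
  rw [norm_toE, norm_toE, ← ENNReal.toReal_mul]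
  refine ENNReal.toReal_mono (ENNReal.mul_ne_top hC'top (memLp_cc μ p f).2.ne) ?_
  set S : ℝ≥0∞ := ∫⁻ y, ‖f y‖ₑ ^ a ∂μ with hS
  let G : X → ℝ≥0∞ := fun x => ∫⁻ y, ENNReal.ofReal (k x y) * ‖f y‖ₑ ^ a ∂μ
  have hG1 : ∀ x, ‖hk.avg f x‖ₑ ^ a ≤ G x := fun x => hk.enorm_avg_rpow_le f hp1 hp' x
  have hG2 : ∀ x, G x ≤ M' * S := by
    intro x
    rw [hS, ← lintegral_const_mul' _ _ hMtop]
    exact lintegral_mono (fun y => mul_le_mul' (ENNReal.ofReal_le_ofReal (hM x y)) le_rfl)
  have hG3 : ∫⁻ x, G x ∂μ = S :=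
    hk.lintegral_swap (fun y => ‖f y‖ₑ ^ a) (f.continuous.measurable.enorm.pow_const _)
  have hGmeas : Measurable G := by
    refine Measurable.lintegral_prod_right ?_
    refine Measurable.mul ?_ ((f.continuous.measurable.enorm.pow_const _).comp measurable_snd)
    exact hk.continuous_uncurry.measurable.ennreal_ofReal
  have hStop : S ≠ ∞ := by
    have h1 := (memLp_cc μ p f).2.ne
    rw [eLpNorm_eq_lintegral_rpow_enorm_toReal hp0 hp'] at h1
    intro hinf
    apply h1
    rw [← ha, ← hS, hinf, ENNReal.top_rpow_of_pos (by positivity)]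
  have hmain : ∫⁻ x, ‖hk.avg f x‖ₑ ^ b ∂μ ≤ M' ^ t * S ^ (b / a) := by
    have h1 : ∀ x, ‖hk.avg f x‖ₑ ^ b ≤ (M' * S) ^ t * G x := by
      intro x
      have h2 : ‖hk.avg f x‖ₑ ^ b = (‖hk.avg f x‖ₑ ^ a) ^ (b / a) := by
        rw [← ENNReal.rpow_mul]
        congr 1
        field_simp
      rw [h2]
      refine (ENNReal.rpow_le_rpow (hG1 x) (by positivity)).trans ?_
      have h3 : (G x) ^ (b / a) = (G x) ^ t * G x := by
        have : b / a = t + 1 := by rw [ht]; ring
        rw [this, ENNReal.rpow_add_of_nonneg _ _ ht0 zero_le_one, ENNReal.rpow_one]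
      rw [h3]
      exact mul_le_mul' (ENNReal.rpow_le_rpow (hG2 x) ht0) le_rfl
    refine (lintegral_mono h1).trans (le_of_eq ?_)
    rw [lintegral_const_mul _ hGmeas, hG3, ENNReal.mul_rpow_of_nonneg _ _ ht0, mul_assoc]
    congr 1
    have : b / a = t + 1 := by rw [ht]; ring
    rw [this, ENNReal.rpow_add_of_nonneg _ _ ht0 zero_le_one, ENNReal.rpow_one]
  rw [eLpNorm_eq_lintegral_rpow_enorm_toReal hq0 hq, eLpNorm_eq_lintegral_rpow_enorm_toReal hp0 hp']
  rw [← ha, ← hb, ← hS]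
  refine (ENNReal.rpow_le_rpow hmain (by positivity)).trans (le_of_eq ?_)
  rw [ENNReal.mul_rpow_of_nonneg _ _ (by positivity), ← ENNReal.rpow_mul S]
  congr 2
  field_simp

/-- The averaging operator from `L^p` to `L^q`. -/
noncomputable def op (hk : GoodKer μ k) (p q : ℝ≥0∞) [Fact (1 ≤ p)] [Fact (1 ≤ q)] :
    Lp ℂ p μ →L[ℂ] Lp ℂ q μ :=
  ((toE μ q) ∘ₗ hk.avgL).extendOfNorm (toE μ p)

theorem op_toE (hk : GoodKer μ k) {p q : ℝ≥0∞} [Fact (1 ≤ p)] [Fact (1 ≤ q)]
    (hpq : p ≤ q) (hq : q ≠ ∞) (f : C_c(X, ℂ)) :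
    hk.op p q (toE μ p f) = toE μ q (hk.avg f) := by
  obtain ⟨C, _, hC⟩ := hk.exists_bound hpq hq
  have hp' : p ≠ ∞ := fun h => hq (top_le_iff.1 (h ▸ hpq))
  exact LinearMap.extendOfNorm_eq (denseRange_toE μ p hp') ⟨C, hC⟩ f

/-- Symmetry of the averaging operator (Fubini). -/
theorem integral_avg_mul (hk : GoodKer μ k) (f g : C_c(X, ℂ)) :
    ∫ x, hk.avg f x * g x ∂μ = ∫ x, f x * hk.avg g x ∂μ := by
  have h1 : ∀ x, hk.avg f x * g x = ∫ w, f w * (k w x : ℂ) * g x ∂μ := by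
    intro x
    rw [hk.avg_apply, integral_mul_const]
  have h2 : ∀ w, f w * hk.avg g w = ∫ x, f w * (k w x : ℂ) * g x ∂μ := by
    intro w
    rw [hk.avg_apply, ← integral_const_mul]
    refine integral_congr_ae (Eventually.of_forall (fun x => ?_))
    change f w * (g x * (k x w : ℂ)) = f w * (k w x : ℂ) * g x
    rw [hk.symm x w]
    ring
  simp_rw [h1, h2]
  refine integral_integral_swap ?_
  refine Continuous.integrable_of_hasCompactSupport ?_ ?_
  · refine Continuous.mul (Continuous.mul (f.continuous.comp continuous_snd) ?_)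
      (g.continuous.comp continuous_fst)
    exact Complex.continuous_ofReal.comp
      (hk.continuous_uncurry.comp (continuous_snd.prodMk continuous_fst))
  · refine HasCompactSupport.intro
      (g.hasCompactSupport.isCompact.prod f.hasCompactSupport.isCompact) (fun z hz => ?_)
    rw [Set.mem_prod, not_and_or] at hz
    change f z.2 * (k z.2 z.1 : ℂ) * g z.1 = 0
    rcases hz with hz | hz
    · rw [image_eq_zero_of_notMem_tsupport hz, mul_zero]
    · rw [image_eq_zero_of_notMem_tsupport hz, zero_mul, zero_mul]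

end GoodKer

end Pool.Agent.R579.Chaos
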